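import Pool.Agent.DQ2.Stmts

set_option autoImplicit false

namespace Pool.Agent.DQ2.H15

open MvPolynomial

theorem irr (hom : HOM) (ir1 : IR1) (ir2 : IR2) : IRR := by
  intro n d hn hd
  by_contra hirr
  haveI : CharZero (LDP.KK n d) :=
    charZero_of_injective_algebraMap (R := LDP.AA n d) (IsFractionRing.injective _ _)
  haveI : CharZero (AlgebraicClosure (LDP.KK n d)) :=
    inferInstance
  obtain ⟨h1, h2⟩ := hom n d
  have hH : (map (algebraMap (LDP.KK n d) (AlgebraicClosure (LDP.KK n d)))
      (LDP.FK n d)).IsHomogeneous d := by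
    unfold LDP.FK
    exact (h1.map _).map _
  have hc : coeff (Finsupp.single 0 d) (map (algebraMap (LDP.KK n d)
      (AlgebraicClosure (LDP.KK n d))) (LDP.FK n d)) = 1 := by
    unfold LDP.FK
    rw [coeff_map, coeff_map, h2 _ (by simp [Finsupp.degree_single])]
    have : LDP.cf n d (Finsupp.single 0 d) = 1 := by
      unfold LDP.cf
      rw [dif_neg]
      rintro ⟨_, h⟩
      exact h rfl
    rw [this, map_one, map_one]
  obtain ⟨r₁, r₂, h⟩ := ir1 _ n d _ hn hd hH hc hirr
  refine ir2 n d hn hd ⟨r₁, r₂, fun t u => ?_⟩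
  have h3 := h t u
  rw [eval_map] at h3
  exact h3

end Pool.Agent.DQ2.H15
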